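import Mathlib

/-!
# An intersecting family of triples with fractional covering number near `7/3` contains a Fano plane
-/

namespace R93.Diam2

open Finset

variable {ι V : Type*} [DecidableEq V]

/-- An indexed intersecting family of triples, of total weight at least `7 m - t`, with all degrees
at most `3 m`, where `t` is small. -/
structure Sys (T : Finset ι) (N : ι → Finset V) (m t : ℕ) : Prop where
  card3 : ∀ v ∈ T, (N v).card = 3
  inter : ∀ v ∈ T, ∀ w ∈ T, (N v ∩ N w).Nonempty
  deg : ∀ x, (T.filter (fun v => x ∈ N v)).card ≤ 3 * m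
  big : 7 * m ≤ T.card + t
  small : 100 * t ≤ m
  pos : 0 < m

variable {T : Finset ι} {N : ι → Finset V} {m t : ℕ}

theorem Sys.f1 (S : Sys T N m t) {v0 : ι} (h0 : v0 ∈ T) :
    (T.filter (fun v => 2 ≤ (N v ∩ N v0).card)).card + (T.filter (fun v => N v = N v0)).card
      ≤ 2 * m + t := by
  have h1 : ∑ v ∈ T, (N v ∩ N v0).card = ∑ x ∈ N v0, (T.filter (fun v => x ∈ N v)).card := by
    have : ∀ v ∈ T, (N v ∩ N v0).card = ∑ x ∈ N v0, if x ∈ N v then 1 else 0 := by
      intro v _
      rw [← Finset.card_filter, Finset.inter_comm, Finset.filter_mem_eq_inter]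
    rw [Finset.sum_congr rfl this, Finset.sum_comm]
    refine Finset.sum_congr rfl fun x _ => ?_
    rw [Finset.card_filter]
  have h2 : ∑ x ∈ N v0, (T.filter (fun v => x ∈ N v)).card ≤ 9 * m := by
    calc ∑ x ∈ N v0, (T.filter (fun v => x ∈ N v)).card ≤ ∑ _x ∈ N v0, 3 * m :=
          Finset.sum_le_sum fun x _ => S.deg x
      _ = 9 * m := by rw [Finset.sum_const, S.card3 v0 h0]; simp; ring
  have h3 : T.card + (T.filter (fun v => 2 ≤ (N v ∩ N v0).card)).card
      + (T.filter (fun v => N v = N v0)).card ≤ ∑ v ∈ T, (N v ∩ N v0).card := by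
    rw [Finset.card_filter, Finset.card_filter, Finset.card_eq_sum_ones, ← Finset.sum_add_distrib,
      ← Finset.sum_add_distrib]
    refine Finset.sum_le_sum fun v hv => ?_
    have hne := (S.inter v hv v0 h0).card_pos
    by_cases he : N v = N v0
    · have h3 : (N v ∩ N v0).card = 3 := by rw [he, Finset.inter_self]; exact S.card3 v0 h0
      rw [h3]
      split_ifs <;> omega
    · rw [if_neg he]
      split_ifs <;> omega
  have := S.big
  omega

theorem Sys.f2 (S : Sys T N m t) (x y : V) :
    m + (T.filter (fun v => x ∈ N v ∧ y ∈ N v)).card ≤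
      (T.filter (fun v => x ∉ N v ∧ y ∉ N v)).card + t := by
  have h1 : T.card + (T.filter (fun v => x ∈ N v ∧ y ∈ N v)).card =
      (T.filter (fun v => x ∈ N v)).card + (T.filter (fun v => y ∈ N v)).card +
      (T.filter (fun v => x ∉ N v ∧ y ∉ N v)).card := by
    rw [Finset.card_filter, Finset.card_filter, Finset.card_filter, Finset.card_filter,
      Finset.card_eq_sum_ones, ← Finset.sum_add_distrib, ← Finset.sum_add_distrib,
      ← Finset.sum_add_distrib]
    refine Finset.sum_congr rfl fun v _ => ?_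
    by_cases hx : x ∈ N v <;> by_cases hy : y ∈ N v <;> simp [hx, hy]
  have := S.big
  have := S.deg x
  have := S.deg y
  omega

/-- The purely logical part of the non linear case. -/
theorem six {α : Type*} (D : ι → Prop) (s : ι → Bool) (j : ι → Fin 3) (q : ι → α)
    (h : ∀ u v, D u → D v → s u ≠ s v → j u ≠ j v → q u = q v)
    (L1 : ∀ s0 j0, ∃ v, D v ∧ s v = s0 ∧ j v ≠ j0)
    (L2 : ∀ j0, ∃ v, D v ∧ j v = j0) : ∀ u v, D u → D v → q u = q v := by
  have third : ∀ a b : Fin 3, ∃ k : Fin 3, k ≠ a ∧ k ≠ b := by decide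
  intro u v hu hv
  obtain ⟨w, hw, hws, hwj⟩ := L1 (!(s u)) (j u)
  have hws' : s w ≠ s u := by rw [hws]; simp
  have hqw : q w = q u := h w u hw hu hws' hwj
  by_cases hsv : s v = s u
  · -- same side as `u`
    by_cases hj : j v = j w
    · obtain ⟨w', hw', hws2, hwj2⟩ := L1 (!(s u)) (j v)
      have hws2' : s w' ≠ s u := by rw [hws2]; simp
      have hqw' : q w' = q v := h w' v hw' hv (by rw [hsv]; exact hws2') hwj2
      by_cases hju : j w' = j u
      · obtain ⟨k, hk1, hk2⟩ := third (j u) (j v)
        obtain ⟨r, hr, hrk⟩ := L2 k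
        by_cases hrs : s r = s u
        · have e1 : q r = q w := h r w hr hw (by rw [hrs]; exact Ne.symm hws')
            (by rw [hrk, ← hj]; exact hk2)
          have e2 : q r = q w' := h r w' hr hw' (by rw [hrs]; exact Ne.symm hws2')
            (by rw [hrk, hju]; exact hk1)
          rw [← hqw, ← e1, e2, hqw']
        · have e1 : q r = q u := h r u hr hu hrs (by rw [hrk]; exact hk1)
          have e2 : q r = q v := h r v hr hv (by rw [hsv]; exact hrs) (by rw [hrk]; exact hk2)
          rw [← e1, e2]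
      · have e1 : q w' = q u := h w' u hw' hu hws2' hju
        rw [← e1, hqw']
    · have e1 : q v = q w := h v w hv hw (by rw [hsv]; exact Ne.symm hws') hj
      rw [e1, hqw]
  · by_cases hj : j v = j u
    · obtain ⟨r, hr, hrs, hrj⟩ := L1 (s u) (j u)
      have hrv : q r = q v := h r v hr hv (by rw [hrs]; exact Ne.symm hsv) (by rw [hj]; exact hrj)
      by_cases hjr : j r = j w
      · obtain ⟨k, hk1, hk2⟩ := third (j u) (j w)
        obtain ⟨r', hr', hrk⟩ := L2 k
        by_cases hrs' : s r' = s u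
        · have e1 : q r' = q w := h r' w hr' hw (by rw [hrs']; exact Ne.symm hws')
            (by rw [hrk]; exact hk2)
          have e2 : q r' = q v := h r' v hr' hv (by rw [hrs']; exact Ne.symm hsv)
            (by rw [hrk, hj]; exact hk1)
          rw [← hqw, ← e1, e2]
        · have e1 : q r' = q u := h r' u hr' hu hrs' (by rw [hrk]; exact hk1)
          have e2 : q r' = q r := h r' r hr' hr (by rw [hrs]; exact hrs')
            (by rw [hrk, hjr]; exact hk2)
          rw [← e1, e2, hrv]
      · have e1 : q r = q w := h r w hr hw (by rw [hrs]; exact Ne.symm hws') hjr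
        rw [← hqw, ← e1, hrv]
    · exact h u v hu hv (Ne.symm hsv) (Ne.symm hj)

theorem third_of {s : Finset V} (hs : s.card = 3) {p q : V} (hp : p ∈ s) (hq : q ∈ s)
    (hpq : p ≠ q) : ∃ r, r ≠ p ∧ r ≠ q ∧ ∀ e, e ∈ s ↔ e = p ∨ e = q ∨ e = r := by
  have h1 : ((s.erase p).erase q).card = 1 := by
    rw [Finset.card_erase_of_mem (Finset.mem_erase.2 ⟨hpq.symm, hq⟩), Finset.card_erase_of_mem hp,
      hs]
  obtain ⟨r, hr⟩ := Finset.card_eq_one.1 h1
  have hr' : r ∈ (s.erase p).erase q := by rw [hr]; exact Finset.mem_singleton_self r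
  rw [Finset.mem_erase, Finset.mem_erase] at hr'
  refine ⟨r, hr'.2.1, hr'.1, fun e => ⟨fun he => ?_, ?_⟩⟩
  · by_cases h1 : e = p
    · exact Or.inl h1
    · by_cases h2 : e = q
      · exact Or.inr (Or.inl h2)
      · right; right
        have : e ∈ (s.erase p).erase q := by
          rw [Finset.mem_erase, Finset.mem_erase]; exact ⟨h2, h1, he⟩
        rw [hr] at this
        exact Finset.mem_singleton.1 this
  · rintro (rfl | rfl | rfl)
    · exact hp
    · exact hq
    · exact hr'.2.2

theorem eq_of_three {s : Finset V} (hs : s.card = 3) {p q r : V} (hp : p ∈ s) (hq : q ∈ s)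
    (hr : r ∈ s) (hpq : p ≠ q) (hpr : p ≠ r) (hqr : q ≠ r) {s' : Finset V} (hs' : s'.card = 3)
    (hp' : p ∈ s') (hq' : q ∈ s') (hr' : r ∈ s') : s = s' := by
  have h3 : ({p, q, r} : Finset V).card = 3 := by
    rw [Finset.card_eq_three]; exact ⟨p, q, r, hpq, hpr, hqr, rfl⟩
  have e1 : ({p, q, r} : Finset V) = s := by
    apply Finset.eq_of_subset_of_card_le
    · intro e he; simp only [Finset.mem_insert, Finset.mem_singleton] at he
      rcases he with rfl | rfl | rfl <;> assumption
    · rw [h3, hs]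
  have e2 : ({p, q, r} : Finset V) = s' := by
    apply Finset.eq_of_subset_of_card_le
    · intro e he; simp only [Finset.mem_insert, Finset.mem_singleton] at he
      rcases he with rfl | rfl | rfl <;> assumption
    · rw [h3, hs']
  rw [← e1, e2]

theorem two_le_inter {s s' : Finset V} {p q : V} (hpq : p ≠ q) (hp : p ∈ s) (hq : q ∈ s)
    (hp' : p ∈ s') (hq' : q ∈ s') : 2 ≤ (s ∩ s').card := by
  have : ({p, q} : Finset V) ⊆ s ∩ s' := by
    intro e he; simp only [Finset.mem_insert, Finset.mem_singleton] at he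
    rcases he with rfl | rfl
    · exact Finset.mem_inter.2 ⟨hp, hp'⟩
    · exact Finset.mem_inter.2 ⟨hq, hq'⟩
  calc 2 = ({p, q} : Finset V).card := (Finset.card_pair hpq).symm
    _ ≤ _ := Finset.card_le_card this

theorem Sys.meet (S : Sys T N m t) {v w : ι} (hv : v ∈ T) (hw : w ∈ T) :
    ∃ e, e ∈ N v ∧ e ∈ N w := by
  obtain ⟨e, he⟩ := S.inter v hv w hw
  exact ⟨e, Finset.mem_inter.1 he⟩

theorem card_pos_ex {P : ι → Prop} [DecidablePred P] (h : 0 < (T.filter P).card) :
    ∃ v ∈ T, P v := by
  obtain ⟨v, hv⟩ := Finset.card_pos.1 h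
  exact ⟨v, (Finset.mem_filter.1 hv).1, (Finset.mem_filter.1 hv).2⟩

theorem filter_le {P Q : ι → Prop} [DecidablePred P] [DecidablePred Q]
    (h : ∀ v ∈ T, P v → Q v) : (T.filter P).card ≤ (T.filter Q).card := by
  apply Finset.card_le_card
  intro v hv
  rw [Finset.mem_filter] at hv ⊢
  exact ⟨hv.1, h v hv.1 hv.2⟩

theorem filter_le_add {P Q R : ι → Prop} [DecidablePred P] [DecidablePred Q] [DecidablePred R]
    (h : ∀ v ∈ T, P v → Q v ∨ R v) :
    (T.filter P).card ≤ (T.filter Q).card + (T.filter R).card := by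
  rw [Finset.card_filter, Finset.card_filter, Finset.card_filter, ← Finset.sum_add_distrib]
  refine Finset.sum_le_sum fun v hv => ?_
  have := h v hv
  by_cases hP : P v <;> by_cases hQ : Q v <;> by_cases hR : R v <;> simp_all

theorem filter_add_le {P Q R : ι → Prop} [DecidablePred P] [DecidablePred Q] [DecidablePred R]
    (hPR : ∀ v ∈ T, P v → R v) (hQR : ∀ v ∈ T, Q v → R v) (hPQ : ∀ v ∈ T, P v → ¬ Q v) :
    (T.filter P).card + (T.filter Q).card ≤ (T.filter R).card := by
  rw [Finset.card_filter, Finset.card_filter, Finset.card_filter, ← Finset.sum_add_distrib]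
  refine Finset.sum_le_sum fun v hv => ?_
  have h1 := hPR v hv
  have h2 := hQR v hv
  have h3 := hPQ v hv
  by_cases hP : P v <;> by_cases hQ : Q v <;> by_cases hR : R v <;> simp_all

end R93.Diam2
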