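import Mathlib

/-!
# Neighbourhoods inside a Fano plane
-/

namespace R93.Diam2

open Finset

/-- The lines of the Fano plane. -/
def line (k : Fin 7) : Finset (Fin 7) := {k, k + 1, k + 3}

theorem blocking : ∀ J : Finset (Fin 7), (∀ k, ∃ j ∈ line k, j ∈ J) → 3 ≤ J.card := by
  decide +kernel

theorem nbhd : ∀ i : Fin 7, ∀ J : Finset (Fin 7), i ∉ J → (∀ k, i ∉ line k → ∃ j ∈ line k, j ∈ J) →
    2 ≤ J.card ∧ (J.card = 2 → ∃ k, i ∈ line k ∧ ∀ j, j ∈ line k ↔ (j = i ∨ j ∈ J)) := by
  decide +kernel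

theorem line_unique : ∀ k k' i j : Fin 7, i ≠ j → i ∈ line k → j ∈ line k → i ∈ line k' →
    j ∈ line k' → k = k' := by
  decide +kernel

theorem line_meet : ∀ k k' : Fin 7, ∃ p, p ∈ line k ∧ p ∈ line k' := by
  decide +kernel

theorem line_union : ∀ k k' : Fin 7, k ≠ k' → (line k ∪ line k').card = 5 := by
  decide +kernel

theorem outside : ∀ k : Fin 7, ∃ i i' : Fin 7, i ≠ i' ∧ i ∉ line k ∧ i' ∉ line k := by
  decide +kernel

theorem hub_sum (R : Fin 7 → Fin 7 → Prop) [∀ i, DecidablePred (R i)] (hs : ∀ i j, R i j → R j i)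
    (hi : ∀ i, ¬ R i i) (hL : ∀ i k, i ∉ line k → ∃ j ∈ line k, R i j) :
    16 ≤ ∑ i, (univ.filter (R i)).card := by
  by_contra hcon
  push Not at hcon
  have hb : ∀ i, 2 ≤ (univ.filter (R i)).card ∧ ((univ.filter (R i)).card = 2 →
      ∃ k, i ∈ line k ∧ ∀ j, j ∈ line k ↔ (j = i ∨ R i j)) := by
    intro i
    have := nbhd i (univ.filter (R i)) (by simp [hi i]) (by
      intro k hk
      obtain ⟨j, hj, hR⟩ := hL i k hk
      exact ⟨j, hj, by simp [hR]⟩)
    simpa using this
  obtain ⟨d, hd⟩ : ∃ d : Fin 7 → ℕ, ∀ i, d i = (univ.filter (R i)).card := ⟨_, fun _ => rfl⟩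
  simp only [← hd] at hcon hb
  rw [Fin.sum_univ_seven] at hcon
  have h0 := (hb 0).1
  have h1 := (hb 1).1
  have h2 := (hb 2).1
  have h3 := (hb 3).1
  have h4 := (hb 4).1
  have h5 := (hb 5).1
  have h6 := (hb 6).1
  have hle3 : ∀ i, d i ≤ 3 := by
    intro i; fin_cases i <;> simp only [Fin.mk_zero, Fin.mk_one, Fin.reduceFinMk] <;> omega
  have htwo : ∀ i j, i ≠ j → d i = 2 ∨ d j = 2 := by
    intro i j hij
    fin_cases i <;> fin_cases j <;> first | (exact absurd rfl hij) | (simp only [Fin.mk_zero, Fin.mk_one, Fin.reduceFinMk]; omega)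
  -- triangles
  have htri : ∀ i k, d i = 2 → i ∈ line k → (∀ j, j ∈ line k ↔ (j = i ∨ R i j)) →
      ∀ j j', j ∈ line k → j' ∈ line k → j ≠ j' → R j j' := by
    intro i k hdi hik hk
    have key : ∀ j j', j ∈ line k → j' ∈ line k → j ≠ j' → j ≠ i → j' ≠ i → d j = 2 → R j j' := by
      intro j j' hj hj' hjj' hji hj'i hdj
      obtain ⟨k', hjk', hk'⟩ := (hb j).2 hdj
      have hRij : R i j := by
        rcases (hk j).1 hj with h | h
        · exact absurd h hji
        · exact h
      have hik' : i ∈ line k' := (hk' i).2 (Or.inr (hs _ _ hRij))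
      have hkk' : k = k' := line_unique k k' i j (Ne.symm hji) hik hj hik' hjk'
      rw [hkk'] at hj'
      rcases (hk' j').1 hj' with h | h
      · exact absurd h.symm hjj'
      · exact h
    intro j j' hj hj' hjj'
    by_cases hji : j = i
    · subst hji
      rcases (hk j').1 hj' with h | h
      · exact absurd h.symm hjj'
      · exact h
    · by_cases hj'i : j' = i
      · subst hj'i
        rcases (hk j).1 hj with h | h
        · exact absurd h hji
        · exact hs _ _ h
      · rcases htwo j j' hjj' with h | h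
        · exact key j j' hj hj' hjj' hji hj'i h
        · exact hs _ _ (key j' j hj' hj (Ne.symm hjj') hj'i hji h)
  obtain ⟨i, hdi⟩ : ∃ i, d i = 2 := by
    rcases htwo 0 1 (by decide) with h | h
    · exact ⟨0, h⟩
    · exact ⟨1, h⟩
  obtain ⟨k, hik, hk⟩ := (hb i).2 hdi
  obtain ⟨i', hi'k, hdi'⟩ : ∃ i', i' ∉ line k ∧ d i' = 2 := by
    obtain ⟨a, b, hab, ha, hb'⟩ := outside k
    rcases htwo a b hab with h | h
    · exact ⟨a, ha, h⟩
    · exact ⟨b, hb', h⟩
  obtain ⟨k', hik', hk'⟩ := (hb i').2 hdi'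
  have hkk' : k ≠ k' := by
    rintro rfl
    exact hi'k hik'
  obtain ⟨p, hp, hp'⟩ := line_meet k k'
  have hsub : (line k ∪ line k').erase p ⊆ univ.filter (R p) := by
    intro q hq
    rw [Finset.mem_erase, Finset.mem_union] at hq
    rw [Finset.mem_filter]
    refine ⟨Finset.mem_univ _, ?_⟩
    rcases hq.2 with h | h
    · exact htri i k hdi hik hk p q hp h (Ne.symm hq.1)
    · exact htri i' k' hdi' hik' hk' p q hp' h (Ne.symm hq.1)
  have hc := Finset.card_le_card hsub
  rw [Finset.card_erase_of_mem (Finset.mem_union_left _ hp), line_union k k' hkk', ← hd p] at hc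
  have := hle3 p
  omega

end R93.Diam2
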