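import Mathlib
import Pool.Agent.R93.Diam2.Fano

/-!
# Two triples of the system meet in at most one point
-/

namespace R93.Diam2

open Finset

variable {ι V : Type*} [DecidableEq V]
variable {T : Finset ι} {N : ι → Finset V} {m t : ℕ}

/-- The final contradiction in the non linear case. -/
theorem Sys.nonlin_aux (S : Sys T N m t) {x y z z' t0 : V} {a0 : ι} (ha0 : a0 ∈ T)
    (hxy : x ≠ y) (hxz : x ≠ z) (hxz' : x ≠ z') (hyz : y ≠ z) (hyz' : y ≠ z')
    (hzz' : z ≠ z') (htx : t0 ≠ x) (hty : t0 ≠ y) (htz : t0 ≠ z) (htz' : t0 ≠ z')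
    (hNa : ∀ e, e ∈ N a0 ↔ e = z ∨ e = z' ∨ e = t0)
    (hA : ∀ v ∈ T, x ∉ N v → y ∉ N v → z ∈ N v ∧ z' ∈ N v ∧ t0 ∈ N v) : False := by
  classical
  have hpos := S.pos
  have hsmall := S.small
  have hbig := S.big
  -- counts
  have f2 := S.f2 x y
  have f1 := S.f1 ha0
  set A := (T.filter (fun v => x ∉ N v ∧ y ∉ N v)).card with hAdef
  set axy := (T.filter (fun v => x ∈ N v ∧ y ∈ N v)).card with haxy
  set g := (T.filter (fun v => 2 ≤ (N v ∩ N a0).card)).card with hg
  have hAeq : A ≤ (T.filter (fun v => N v = N a0)).card := by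
    apply filter_le
    intro v hv hP
    obtain ⟨h1, h2, h3⟩ := hA v hv hP.1 hP.2
    exact eq_of_three (S.card3 v hv) h1 h2 h3 hzz' htz.symm htz'.symm (S.card3 a0 ha0)
      ((hNa z).2 (by simp)) ((hNa z').2 (by simp)) ((hNa t0).2 (by simp))
  let DP : ι → Prop := fun v => ¬ (x ∉ N v ∧ y ∉ N v) ∧ ¬ (x ∈ N v ∧ y ∈ N v) ∧
    ¬ (2 ≤ (N v ∩ N a0).card)
  have hTD : T.card ≤ (T.filter DP).card + (axy + g) := by
    have e1 : (T.filter (fun _ => True)).card ≤ (T.filter DP).card +
        (T.filter (fun v => ¬ DP v)).card := filter_le_add (by tauto)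
    have e2 : (T.filter (fun v => ¬ DP v)).card ≤ axy + g := by
      apply filter_le_add
      intro v hv hP
      by_cases hb : x ∈ N v ∧ y ∈ N v
      · exact Or.inl hb
      · by_cases h2 : 2 ≤ (N v ∩ N a0).card
        · exact Or.inr h2
        · exfalso
          apply hP
          refine ⟨?_, hb, h2⟩
          intro hn
          obtain ⟨h1, h2', h3⟩ := hA v hv hn.1 hn.2
          exact h2 (two_le_inter hzz' h1 h2' ((hNa z).2 (by simp)) ((hNa z').2 (by simp)))
    rw [Finset.filter_true] at e1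
    omega
  have hDbig : 6 * m ≤ (T.filter DP).card + 3 * t := by omega
  -- properties of the elements of D
  have hDcard : ∀ v ∈ T, DP v → (N v ∩ N a0).card = 1 := by
    intro v hv hP
    have := (S.inter v hv a0 ha0).card_pos
    have := hP.2.2
    omega
  have hside : ∀ v ∈ T, DP v → (x ∈ N v ∧ y ∉ N v) ∨ (x ∉ N v ∧ y ∈ N v) := by
    intro v hv hP
    have h1 := hP.1
    have h2 := hP.2.1
    tauto
  have htwo : ∀ v ∈ T, DP v → ∀ p q, p ∈ N a0 → q ∈ N a0 → p ∈ N v → q ∈ N v → p = q := by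
    intro v hv hP p q hp hq hp' hq'
    by_contra hpq
    exact hP.2.2 (two_le_inter hpq hp' hq' hp hq)
  let s : ι → Bool := fun v => decide (x ∈ N v)
  let j : ι → Fin 3 := fun v => if t0 ∈ N v then 0 else if z ∈ N v then 1 else 2
  let q : ι → Finset V := fun v => N v \ {x, y, z, z', t0}
  have hj0 : ∀ v, j v = 0 ↔ t0 ∈ N v := by
    intro v
    by_cases h1 : t0 ∈ N v <;> by_cases h2 : z ∈ N v <;> simp [j, h1, h2]
  have hj1 : ∀ v, j v = 1 ↔ t0 ∉ N v ∧ z ∈ N v := by
    intro v
    by_cases h1 : t0 ∈ N v <;> by_cases h2 : z ∈ N v <;> simp [j, h1, h2]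
  have hj2 : ∀ v, j v = 2 ↔ t0 ∉ N v ∧ z ∉ N v := by
    intro v
    by_cases h1 : t0 ∈ N v <;> by_cases h2 : z ∈ N v <;> simp [j, h1, h2]
  have hzmem : z ∈ N a0 := (hNa z).2 (by simp)
  have hz'mem : z' ∈ N a0 := (hNa z').2 (by simp)
  have htmem : t0 ∈ N a0 := (hNa t0).2 (by simp)
  -- index classes are small
  have hidx : ∀ k : Fin 3, (T.filter (fun v => DP v ∧ j v = k)).card ≤ 2 * m + t := by
    have key : ∀ e, e ∈ N a0 → (T.filter (fun v => DP v ∧ e ∈ N v)).card ≤ 2 * m + t := by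
      intro e he
      have h1 : (T.filter (fun v => x ∉ N v ∧ y ∉ N v)).card +
          (T.filter (fun v => DP v ∧ e ∈ N v)).card ≤ (T.filter (fun v => e ∈ N v)).card := by
        apply filter_add_le
        · intro v hv hP
          obtain ⟨h1, h2, h3⟩ := hA v hv hP.1 hP.2
          rcases (hNa e).1 he with rfl | rfl | rfl <;> assumption
        · intro v hv hP
          exact hP.2
        · intro v hv hP hQ
          exact hQ.1.1 hP
      have h2 := S.deg e
      rw [← hAdef] at h1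
      omega
    intro k
    fin_cases k
    · refine (filter_le ?_).trans (key t0 htmem)
      intro v hv hP
      exact ⟨hP.1, (hj0 v).1 hP.2⟩
    · refine (filter_le ?_).trans (key z hzmem)
      intro v hv hP
      exact ⟨hP.1, ((hj1 v).1 hP.2).2⟩
    · refine (filter_le ?_).trans (key z' hz'mem)
      intro v hv hP
      refine ⟨hP.1, ?_⟩
      obtain ⟨e, he1, he2⟩ := S.meet hv ha0
      have h2 := (hj2 v).1 hP.2
      rcases (hNa e).1 he2 with rfl | rfl | rfl
      · exact absurd he1 h2.2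
      · exact he1
      · exact absurd he1 h2.1
  -- sides are small
  have hsides : ∀ b : Bool, (T.filter (fun v => DP v ∧ s v = b)).card ≤ 3 * m := by
    intro b
    cases b
    · refine (filter_le ?_).trans (S.deg y)
      intro v hv hP
      have h1 : x ∉ N v := by simpa [s] using hP.2
      rcases hside v hv hP.1 with h | h
      · exact absurd h.1 h1
      · exact h.2
    · refine (filter_le ?_).trans (S.deg x)
      intro v hv hP
      simpa [s] using hP.2
  have L1 : ∀ s0 j0, ∃ v, (v ∈ T ∧ DP v) ∧ s v = s0 ∧ j v ≠ j0 := by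
    intro s0 j0
    have e1 : (T.filter DP).card ≤ (T.filter (fun v => DP v ∧ s v = !s0)).card +
        (T.filter (fun v => DP v ∧ s v = s0)).card := by
      apply filter_le_add
      intro v hv hP
      cases hs : s v <;> cases s0 <;> simp [hP]
    have e2 : (T.filter (fun v => DP v ∧ s v = s0)).card ≤
        (T.filter (fun v => DP v ∧ j v = j0)).card +
        (T.filter (fun v => DP v ∧ s v = s0 ∧ j v ≠ j0)).card := by
      apply filter_le_add
      intro v hv hP
      by_cases hj : j v = j0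
      · exact Or.inl ⟨hP.1, hj⟩
      · exact Or.inr ⟨hP.1, hP.2, hj⟩
    have e3 := hsides (!s0)
    have e4 := hidx j0
    have e5 : 0 < (T.filter (fun v => DP v ∧ s v = s0 ∧ j v ≠ j0)).card := by omega
    obtain ⟨v, hv, hP⟩ := card_pos_ex e5
    exact ⟨v, ⟨hv, hP.1⟩, hP.2⟩
  have L2 : ∀ j0, ∃ v, (v ∈ T ∧ DP v) ∧ j v = j0 := by
    intro j0
    have key : ∀ k1 k2 : Fin 3, (∀ k : Fin 3, k = j0 ∨ k = k1 ∨ k = k2) →
        ∃ v, (v ∈ T ∧ DP v) ∧ j v = j0 := by
      intro k1 k2 hk
      have e1 : (T.filter DP).card ≤ (T.filter (fun v => DP v ∧ j v = j0)).card +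
          (T.filter (fun v => DP v ∧ (j v = k1 ∨ j v = k2))).card := by
        apply filter_le_add
        intro v hv hP
        rcases hk (j v) with h | h | h
        · exact Or.inl ⟨hP, h⟩
        · exact Or.inr ⟨hP, Or.inl h⟩
        · exact Or.inr ⟨hP, Or.inr h⟩
      have e2 : (T.filter (fun v => DP v ∧ (j v = k1 ∨ j v = k2))).card ≤
          (T.filter (fun v => DP v ∧ j v = k1)).card +
          (T.filter (fun v => DP v ∧ j v = k2)).card := by
        apply filter_le_add
        intro v hv hP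
        rcases hP.2 with h | h
        · exact Or.inl ⟨hP.1, h⟩
        · exact Or.inr ⟨hP.1, h⟩
      have e3 := hidx k1
      have e4 := hidx k2
      have e5 : 0 < (T.filter (fun v => DP v ∧ j v = j0)).card := by omega
      obtain ⟨v, hv, hP⟩ := card_pos_ex e5
      exact ⟨v, ⟨hv, hP.1⟩, hP.2⟩
    have : ∀ j0 : Fin 3, ∃ k1 k2 : Fin 3, ∀ k : Fin 3, k = j0 ∨ k = k1 ∨ k = k2 := by decide
    obtain ⟨k1, k2, hk⟩ := this j0
    exact key k1 k2 hk
  -- the third points
  have hqcard : ∀ v, v ∈ T → DP v → (q v).card = 1 := by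
    intro v hv hP
    obtain ⟨e, he⟩ := Finset.card_eq_one.1 (hDcard v hv hP)
    have hcs : (N v \ {x, y, z, z', t0}).card + (N v ∩ {x, y, z, z', t0}).card = (N v).card :=
      Finset.card_sdiff_add_card_inter _ _
    rw [S.card3 v hv] at hcs
    have he' : e ∈ N v ∧ e ∈ N a0 := by
      rw [← Finset.mem_inter, he]; exact Finset.mem_singleton_self e
    have hP5 : e ∈ ({x, y, z, z', t0} : Finset V) := by
      rcases (hNa e).1 he'.2 with rfl | rfl | rfl <;> simp
    have hother : ∀ f ∈ N v, f ∈ N a0 → f = e := by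
      intro f hf hf'
      have : f ∈ N v ∩ N a0 := Finset.mem_inter.2 ⟨hf, hf'⟩
      rw [he] at this
      exact Finset.mem_singleton.1 this
    have hex : e ≠ x := by
      rintro rfl
      rcases (hNa e).1 he'.2 with h | h | h
      · exact hxz h
      · exact hxz' h
      · exact htx h.symm
    have hey : e ≠ y := by
      rintro rfl
      rcases (hNa e).1 he'.2 with h | h | h
      · exact hyz h
      · exact hyz' h
      · exact hty h.symm
    have hint : (N v ∩ {x, y, z, z', t0}).card = 2 := by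
      rw [Finset.card_eq_two]
      rcases hside v hv hP with hs | hs
      · refine ⟨x, e, hex.symm, ?_⟩
        ext f
        simp only [Finset.mem_inter, Finset.mem_insert, Finset.mem_singleton]
        constructor
        · rintro ⟨hf, rfl | rfl | rfl | rfl | rfl⟩
          · exact Or.inl rfl
          · exact absurd hf hs.2
          · exact Or.inr (hother _ hf hzmem)
          · exact Or.inr (hother _ hf hz'mem)
          · exact Or.inr (hother _ hf htmem)
        · rintro (rfl | rfl)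
          · exact ⟨hs.1, Or.inl rfl⟩
          · refine ⟨he'.1, ?_⟩
            simpa using hP5
      · refine ⟨y, e, hey.symm, ?_⟩
        ext f
        simp only [Finset.mem_inter, Finset.mem_insert, Finset.mem_singleton]
        constructor
        · rintro ⟨hf, rfl | rfl | rfl | rfl | rfl⟩
          · exact absurd hf hs.1
          · exact Or.inl rfl
          · exact Or.inr (hother _ hf hzmem)
          · exact Or.inr (hother _ hf hz'mem)
          · exact Or.inr (hother _ hf htmem)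
        · rintro (rfl | rfl)
          · exact ⟨hs.2, Or.inr (Or.inl rfl)⟩
          · refine ⟨he'.1, ?_⟩
            simpa using hP5
    show (N v \ {x, y, z, z', t0}).card = 1
    omega
  have hq : ∀ u v, (u ∈ T ∧ DP u) → (v ∈ T ∧ DP v) → s u ≠ s v → j u ≠ j v → q u = q v := by
    rintro u v ⟨hu, hPu⟩ ⟨hv, hPv⟩ hs hj
    obtain ⟨e, heu, hev⟩ := S.meet hu hv
    have hex : e ≠ x := by
      rintro rfl
      exact hs (by simp [s, heu, hev])
    have hey : e ≠ y := by
      rintro rfl
      have h1 : x ∉ N u := by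
        rcases hside u hu hPu with h | h
        · exact absurd heu h.2
        · exact h.1
      have h2 : x ∉ N v := by
        rcases hside v hv hPv with h | h
        · exact absurd hev h.2
        · exact h.1
      exact hs (by simp [s, h1, h2])
    have het : e ≠ t0 := by
      rintro rfl
      exact hj (by rw [(hj0 u).2 heu, (hj0 v).2 hev])
    have hez : e ≠ z := by
      rintro rfl
      have h1 : t0 ∉ N u := fun h => htz (htwo u hu hPu _ _ htmem hzmem h heu)
      have h2 : t0 ∉ N v := fun h => htz (htwo v hv hPv _ _ htmem hzmem h hev)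
      exact hj (by rw [(hj1 u).2 ⟨h1, heu⟩, (hj1 v).2 ⟨h2, hev⟩])
    have hez' : e ≠ z' := by
      rintro rfl
      have h1 : t0 ∉ N u := fun h => htz' (htwo u hu hPu _ _ htmem hz'mem h heu)
      have h2 : t0 ∉ N v := fun h => htz' (htwo v hv hPv _ _ htmem hz'mem h hev)
      have h3 : z ∉ N u := fun h => hzz' (htwo u hu hPu _ _ hzmem hz'mem h heu)
      have h4 : z ∉ N v := fun h => hzz' (htwo v hv hPv _ _ hzmem hz'mem h hev)
      exact hj (by rw [(hj2 u).2 ⟨h1, h3⟩, (hj2 v).2 ⟨h2, h4⟩])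
    have hmem : ∀ w, e ∈ N w → e ∈ q w := by
      intro w hw
      show e ∈ N w \ {x, y, z, z', t0}
      rw [Finset.mem_sdiff]
      refine ⟨hw, ?_⟩
      simp only [Finset.mem_insert, Finset.mem_singleton, not_or]
      exact ⟨hex, hey, hez, hez', het⟩
    obtain ⟨e1, he1⟩ := Finset.card_eq_one.1 (hqcard u hu hPu)
    obtain ⟨e2, he2⟩ := Finset.card_eq_one.1 (hqcard v hv hPv)
    have g1 := hmem u heu
    have g2 := hmem v hev
    rw [he1] at g1 ⊢
    rw [he2] at g2 ⊢
    rw [← Finset.mem_singleton.1 g1, ← Finset.mem_singleton.1 g2]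
  have hall := six (fun v => v ∈ T ∧ DP v) s j q hq L1 L2
  obtain ⟨u0, ⟨hu0, hPu0⟩, -⟩ := L2 0
  obtain ⟨e0, he0⟩ := Finset.card_eq_one.1 (hqcard u0 hu0 hPu0)
  have hfin : (T.filter DP).card ≤ (T.filter (fun v => e0 ∈ N v)).card := by
    apply filter_le
    intro v hv hP
    have h1 : q v = q u0 := hall v u0 ⟨hv, hP⟩ ⟨hu0, hPu0⟩
    have h2 : e0 ∈ q v := by rw [h1, he0]; exact Finset.mem_singleton_self e0
    exact (Finset.mem_sdiff.1 h2).1
  have := S.deg e0
  omega

/-- Two different triples of the system have exactly one common point. -/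
theorem Sys.nonlin (S : Sys T N m t) {v1 v2 : ι} (h1 : v1 ∈ T) (h2 : v2 ∈ T)
    (hne : N v1 ≠ N v2) : (N v1 ∩ N v2).card = 1 := by
  classical
  have hpos := S.pos
  have hsmall := S.small
  by_contra hcon
  have hge : 2 ≤ (N v1 ∩ N v2).card := by
    have := (S.inter v1 h1 v2 h2).card_pos
    omega
  have hc1 := S.card3 v1 h1
  have hc2 := S.card3 v2 h2
  have hlt : (N v1 ∩ N v2).card < 3 := by
    by_contra hge3
    have e1 : N v1 ∩ N v2 = N v1 := Finset.eq_of_subset_of_card_le Finset.inter_subset_left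
      (by omega)
    have e2 : N v1 ∩ N v2 = N v2 := Finset.eq_of_subset_of_card_le Finset.inter_subset_right
      (by omega)
    exact hne (e1.symm.trans e2)
  obtain ⟨x, y, hxy, hI⟩ := Finset.card_eq_two.1 (show (N v1 ∩ N v2).card = 2 by omega)
  have hx : x ∈ N v1 ∧ x ∈ N v2 := by
    rw [← Finset.mem_inter, hI]; simp
  have hy : y ∈ N v1 ∧ y ∈ N v2 := by
    rw [← Finset.mem_inter, hI]; simp
  obtain ⟨z, hzx, hzy, hN1⟩ := third_of hc1 hx.1 hy.1 hxy
  obtain ⟨z', hz'x, hz'y, hN2⟩ := third_of hc2 hx.2 hy.2 hxy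
  have hzz' : z ≠ z' := by
    rintro rfl
    exact hne (by ext e; rw [hN1, hN2])
  -- `A` and `B`
  have hAmem : ∀ v ∈ T, x ∉ N v → y ∉ N v → z ∈ N v ∧ z' ∈ N v := by
    intro v hv hxv hyv
    obtain ⟨e, he, he'⟩ := S.meet hv h1
    obtain ⟨f, hf, hf'⟩ := S.meet hv h2
    constructor
    · rcases (hN1 e).1 he' with rfl | rfl | rfl
      · exact absurd he hxv
      · exact absurd he hyv
      · exact he
    · rcases (hN2 f).1 hf' with rfl | rfl | rfl
      · exact absurd hf hxv
      · exact absurd hf hyv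
      · exact hf
  have hBmem : ∀ v ∈ T, z ∉ N v → x ∈ N v ∨ y ∈ N v := by
    intro v hv hzv
    obtain ⟨e, he, he'⟩ := S.meet hv h1
    rcases (hN1 e).1 he' with rfl | rfl | rfl
    · exact Or.inl he
    · exact Or.inr he
    · exact absurd he hzv
  have fxy := S.f2 x y
  have fzz := S.f2 z z'
  have hAle : (T.filter (fun v => x ∉ N v ∧ y ∉ N v)).card ≤
      (T.filter (fun v => z ∈ N v ∧ z' ∈ N v)).card :=
    filter_le fun v hv hP => hAmem v hv hP.1 hP.2
  obtain ⟨a0, ha0, hxa, hya⟩ : ∃ v ∈ T, x ∉ N v ∧ y ∉ N v := card_pos_ex (by omega)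
  obtain ⟨hza, hz'a⟩ := hAmem a0 ha0 hxa hya
  obtain ⟨t0, ht0z, ht0z', hNa⟩ := third_of (S.card3 a0 ha0) hza hz'a hzz'
  have ht0a : t0 ∈ N a0 := (hNa t0).2 (by simp)
  have ht0x : t0 ≠ x := by rintro rfl; exact hxa ht0a
  have ht0y : t0 ≠ y := by rintro rfl; exact hya ht0a
  have hBt0 : ∀ v ∈ T, z ∉ N v → z' ∉ N v → t0 ∈ N v := by
    intro v hv hzv hz'v
    obtain ⟨e, he, he'⟩ := S.meet hv ha0
    rcases (hNa e).1 he' with rfl | rfl | rfl
    · exact absurd he hzv
    · exact absurd he hz'v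
    · exact he
  by_cases hall : ∀ v ∈ T, x ∉ N v → y ∉ N v → t0 ∈ N v
  · exact S.nonlin_aux ha0 hxy hzx.symm hz'x.symm hzy.symm hz'y.symm hzz' ht0x ht0y ht0z ht0z' hNa
      (fun v hv hxv hyv => ⟨(hAmem v hv hxv hyv).1, (hAmem v hv hxv hyv).2, hall v hv hxv hyv⟩)
  · push Not at hall
    obtain ⟨a1, ha1, hxa1, hya1, ht0a1⟩ := hall
    obtain ⟨hza1, hz'a1⟩ := hAmem a1 ha1 hxa1 hya1
    obtain ⟨t1, ht1z, ht1z', hNa1⟩ := third_of (S.card3 a1 ha1) hza1 hz'a1 hzz'
    have ht1a : t1 ∈ N a1 := (hNa1 t1).2 (by simp)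
    have ht1x : t1 ≠ x := by rintro rfl; exact hxa1 ht1a
    have ht1y : t1 ≠ y := by rintro rfl; exact hya1 ht1a
    have ht01 : t0 ≠ t1 := by rintro rfl; exact ht0a1 ht1a
    have hBt1 : ∀ v ∈ T, z ∉ N v → z' ∉ N v → t1 ∈ N v := by
      intro v hv hzv hz'v
      obtain ⟨e, he, he'⟩ := S.meet hv ha1
      rcases (hNa1 e).1 he' with rfl | rfl | rfl
      · exact absurd he hzv
      · exact absurd he hz'v
      · exact he
    have key : ∀ w, w ≠ t0 → w ≠ t1 →
        (T.filter (fun v => (z ∉ N v ∧ z' ∉ N v) ∧ w ∈ N v)).card ≤ 3 * t := by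
      intro w hwt0 hwt1
      by_cases h0 : (T.filter (fun v => (z ∉ N v ∧ z' ∉ N v) ∧ w ∈ N v)).card = 0
      · omega
      · obtain ⟨v0, hv0, hP0⟩ : ∃ v ∈ T, (z ∉ N v ∧ z' ∉ N v) ∧ w ∈ N v :=
          card_pos_ex (Nat.pos_of_ne_zero h0)
        have f1 := S.f1 hv0
        have e1 : (T.filter (fun v => z ∉ N v ∧ z' ∉ N v)).card ≤
            (T.filter (fun v => 2 ≤ (N v ∩ N v0).card)).card := by
          apply filter_le
          intro v hv hP
          exact two_le_inter ht01 (hBt0 v hv hP.1 hP.2) (hBt1 v hv hP.1 hP.2)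
            (hBt0 v0 hv0 hP0.1.1 hP0.1.2) (hBt1 v0 hv0 hP0.1.1 hP0.1.2)
        have e2 : (T.filter (fun v => (z ∉ N v ∧ z' ∉ N v) ∧ w ∈ N v)).card ≤
            (T.filter (fun v => N v = N v0)).card := by
          apply filter_le
          intro v hv hP
          exact eq_of_three (S.card3 v hv) hP.2 (hBt0 v hv hP.1.1 hP.1.2)
            (hBt1 v hv hP.1.1 hP.1.2) hwt0 hwt1 ht01 (S.card3 v0 hv0) hP0.2
            (hBt0 v0 hv0 hP0.1.1 hP0.1.2) (hBt1 v0 hv0 hP0.1.1 hP0.1.2)
        omega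
    have e3 : (T.filter (fun v => z ∉ N v ∧ z' ∉ N v)).card ≤
        (T.filter (fun v => (z ∉ N v ∧ z' ∉ N v) ∧ x ∈ N v)).card +
        (T.filter (fun v => (z ∉ N v ∧ z' ∉ N v) ∧ y ∈ N v)).card := by
      apply filter_le_add
      intro v hv hP
      rcases hBmem v hv hP.1 with h | h
      · exact Or.inl ⟨hP, h⟩
      · exact Or.inr ⟨hP, h⟩
    have e4 := key x ht0x.symm ht1x.symm
    have e5 := key y ht0y.symm ht1y.symm
    omega

end R93.Diam2
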