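import Mathlib
import Pool.Agent.R93.Diam2.NonLin

/-!
# The system contains a Fano plane
-/

namespace R93.Diam2

open Finset

variable {ι V : Type*} [DecidableEq V]
variable {T : Finset ι} {N : ι → Finset V} {m t : ℕ}

theorem or_swap3 (p q r : Prop) : (p ∨ q ∨ r) ↔ (p ∨ r ∨ q) := by tauto

theorem or_rot3 (p q r : Prop) : (p ∨ q ∨ r) ↔ (q ∨ r ∨ p) := by tauto

theorem Sys.one (S : Sys T N m t) {v w : ι} (hv : v ∈ T) (hw : w ∈ T) (hne : N v ≠ N w)
    {p q : V} (hp : p ∈ N v) (hp' : p ∈ N w) (hq : q ∈ N v) (hq' : q ∈ N w) : p = q := by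
  by_contra hpq
  have := two_le_inter hpq hp hq hp' hq'
  have := S.nonlin hv hw hne
  omega

theorem Sys.class_le (S : Sys T N m t) {v : ι} (hv : v ∈ T) :
    2 * (T.filter (fun w => N w = N v)).card ≤ 2 * m + t := by
  have f1 := S.f1 hv
  have : (T.filter (fun w => N w = N v)).card ≤ (T.filter (fun w => 2 ≤ (N w ∩ N v).card)).card := by
    apply filter_le
    intro w hw hP
    rw [hP, Finset.inter_self, S.card3 v hv]
    norm_num
  omega

/-- There are no three different triples through a point. -/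
theorem Sys.no_three (S : Sys T N m t) {v0 : ι} (h0 : v0 ∈ T) {b : V} (hb : b ∈ N v0)
    {w1 w2 w3 : ι} (h1 : w1 ∈ T) (h2 : w2 ∈ T) (h3 : w3 ∈ T)
    (hb1 : b ∈ N w1) (hb2 : b ∈ N w2) (hb3 : b ∈ N w3)
    (h01 : N w1 ≠ N v0) (h02 : N w2 ≠ N v0) (h03 : N w3 ≠ N v0)
    (h12 : N w1 ≠ N w2) (h13 : N w1 ≠ N w3) (h23 : N w2 ≠ N w3) : False := by
  have hpos := S.pos
  have hsmall := S.small
  have hbig := S.big
  -- a triple which does not contain `b`
  obtain ⟨u, hu, hbu⟩ : ∃ u ∈ T, b ∉ N u := by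
    by_contra hcon
    push Not at hcon
    have : (T.filter (fun v => b ∈ N v)) = T := Finset.filter_true_of_mem hcon
    have h := S.deg b
    rw [this] at h
    omega
  obtain ⟨f, hfu, hf0⟩ := S.meet hu h0
  obtain ⟨e1, he1, he1'⟩ := S.meet hu h1
  obtain ⟨e2, he2, he2'⟩ := S.meet hu h2
  obtain ⟨e3, he3, he3'⟩ := S.meet hu h3
  have nb : ∀ e, e ∈ N u → e ≠ b := by rintro e he rfl; exact hbu he
  have hfe1 : f ≠ e1 := by
    rintro rfl; exact nb f hfu (S.one h1 h0 h01 he1' hf0 hb1 hb)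
  have hfe2 : f ≠ e2 := by
    rintro rfl; exact nb f hfu (S.one h2 h0 h02 he2' hf0 hb2 hb)
  have hfe3 : f ≠ e3 := by
    rintro rfl; exact nb f hfu (S.one h3 h0 h03 he3' hf0 hb3 hb)
  have he12 : e1 ≠ e2 := by
    rintro rfl; exact nb e1 he1 (S.one h1 h2 h12 he1' he2' hb1 hb2)
  have he13 : e1 ≠ e3 := by
    rintro rfl; exact nb e1 he1 (S.one h1 h3 h13 he1' he3' hb1 hb3)
  have he23 : e2 ≠ e3 := by
    rintro rfl; exact nb e2 he2 (S.one h2 h3 h23 he2' he3' hb2 hb3)
  have hsub : ({f, e1, e2, e3} : Finset V) ⊆ N u := by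
    intro e he
    simp only [Finset.mem_insert, Finset.mem_singleton] at he
    rcases he with rfl | rfl | rfl | rfl <;> assumption
  have hcard : ({f, e1, e2, e3} : Finset V).card = 4 := by
    rw [Finset.card_insert_of_notMem, Finset.card_insert_of_notMem, Finset.card_pair he23]
    · simp [he12, he13]
    · simp [hfe1, hfe2, hfe3]
  have := Finset.card_le_card hsub
  rw [hcard, S.card3 u hu] at this
  omega

theorem Sys.thru_le (S : Sys T N m t) {v0 : ι} (h0 : v0 ∈ T) {b : V} (hb : b ∈ N v0) :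
    (T.filter (fun v => b ∈ N v ∧ N v ≠ N v0)).card ≤ 2 * m + t := by
  by_cases hne : ∃ w1 ∈ T, b ∈ N w1 ∧ N w1 ≠ N v0
  · obtain ⟨w1, h1, hb1, h01⟩ := hne
    by_cases hne2 : ∃ w2 ∈ T, (b ∈ N w2 ∧ N w2 ≠ N v0) ∧ N w2 ≠ N w1
    · obtain ⟨w2, h2, ⟨hb2, h02⟩, h12⟩ := hne2
      have : (T.filter (fun v => b ∈ N v ∧ N v ≠ N v0)).card ≤
          (T.filter (fun v => N v = N w1)).card + (T.filter (fun v => N v = N w2)).card := by
        apply filter_le_add
        intro v hv hP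
        by_contra hcon
        push Not at hcon
        exact S.no_three h0 hb h1 h2 hv hb1 hb2 hP.1 h01 h02 hP.2 h12.symm hcon.1.symm hcon.2.symm
      have := S.class_le h1
      have := S.class_le h2
      omega
    · push Not at hne2
      have : (T.filter (fun v => b ∈ N v ∧ N v ≠ N v0)).card ≤
          (T.filter (fun v => N v = N w1)).card := by
        apply filter_le
        intro v hv hP
        exact hne2 v hv hP
      have := S.class_le h1
      omega
  · push Not at hne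
    have : (T.filter (fun v => b ∈ N v ∧ N v ≠ N v0)) = ∅ := by
      apply Finset.filter_false_of_mem
      intro v hv hP
      exact hP.2 (hne v hv hP.1)
    rw [this]
    simp

theorem Sys.two_classes (S : Sys T N m t) {v0 : ι} (h0 : v0 ∈ T) {a b c : V}
    (hN : ∀ e, e ∈ N v0 ↔ e = a ∨ e = b ∨ e = c) :
    ∃ u1 ∈ T, ∃ u2 ∈ T, a ∈ N u1 ∧ a ∈ N u2 ∧ N u1 ≠ N v0 ∧ N u2 ≠ N v0 ∧ N u1 ≠ N u2 := by
  have hpos := S.pos
  have hsmall := S.small
  have hbig := S.big
  have hSb := S.thru_le h0 ((hN b).2 (by simp))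
  have hSc := S.thru_le h0 ((hN c).2 (by simp))
  have hcl := S.class_le h0
  have hsum : T.card ≤ (T.filter (fun v => a ∈ N v ∧ N v ≠ N v0)).card +
      ((T.filter (fun v => b ∈ N v ∧ N v ≠ N v0)).card +
      ((T.filter (fun v => c ∈ N v ∧ N v ≠ N v0)).card +
      (T.filter (fun v => N v = N v0)).card)) := by
    rw [Finset.card_filter, Finset.card_filter, Finset.card_filter, Finset.card_filter,
      Finset.card_eq_sum_ones, ← Finset.sum_add_distrib, ← Finset.sum_add_distrib,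
      ← Finset.sum_add_distrib]
    refine Finset.sum_le_sum fun v hv => ?_
    by_cases he : N v = N v0
    · simp [he]
    · obtain ⟨e, he1, he2⟩ := S.meet hv h0
      rcases (hN e).1 he2 with rfl | rfl | rfl
      · simp only [he, he1, ne_eq, not_false_eq_true, and_true, if_true, if_false]; omega
      · simp only [he, he1, ne_eq, not_false_eq_true, and_true, if_true, if_false]; omega
      · simp only [he, he1, ne_eq, not_false_eq_true, and_true, if_true, if_false]; omega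
  obtain ⟨u1, hu1, ha1, h01⟩ : ∃ u ∈ T, a ∈ N u ∧ N u ≠ N v0 := card_pos_ex (by omega)
  by_contra hcon
  push Not at hcon
  have hle : (T.filter (fun v => a ∈ N v ∧ N v ≠ N v0)).card ≤
      (T.filter (fun v => N v = N u1)).card := by
    apply filter_le
    intro v hv hP
    by_contra hne
    exact hne (hcon v hv u1 hu1 hP.1 ha1 hP.2 h01)
  have := S.class_le hu1
  omega

/-- The system contains a Fano plane. -/
theorem Sys.fano (S : Sys T N m t) :
    ∃ p : Fin 7 → V, Function.Injective p ∧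
      ∀ i, ∃ v ∈ T, ∀ e, e ∈ N v ↔ e = p i ∨ e = p (i + 1) ∨ e = p (i + 3) := by
  have hpos := S.pos
  have hsmall := S.small
  have hbig := S.big
  obtain ⟨v0, h0⟩ : T.Nonempty := by
    rw [← Finset.card_pos]; omega
  obtain ⟨a, b, c, hab, hac, hbc, hN0'⟩ := Finset.card_eq_three.1 (S.card3 v0 h0)
  have hN0 : ∀ e, e ∈ N v0 ↔ e = a ∨ e = b ∨ e = c := by intro e; rw [hN0']; simp
  have ha0 : a ∈ N v0 := (hN0 a).2 (by simp)
  have hb0 : b ∈ N v0 := (hN0 b).2 (by simp)
  have hc0 : c ∈ N v0 := (hN0 c).2 (by simp)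
  obtain ⟨u1, hu1, u2, hu2, hau1, hau2, hu10, hu20, hu12⟩ := S.two_classes h0 hN0
  obtain ⟨w1, hw1, w2, hw2, hbw1, hbw2, hw10, hw20, hw12⟩ := S.two_classes (a := b) (b := a)
    (c := c) h0 (fun e => by rw [hN0]; tauto)
  obtain ⟨r1, hr1, r2, hr2, hcr1, hcr2, hr10, hr20, hr12⟩ := S.two_classes (a := c) (b := a)
    (c := b) h0 (fun e => by rw [hN0]; tauto)
  -- points outside
  have hbu1 : b ∉ N u1 := fun h => hab (S.one hu1 h0 hu10 hau1 ha0 h hb0)
  have hbu2 : b ∉ N u2 := fun h => hab (S.one hu2 h0 hu20 hau2 ha0 h hb0)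
  have hcu1 : c ∉ N u1 := fun h => hac (S.one hu1 h0 hu10 hau1 ha0 h hc0)
  have hcu2 : c ∉ N u2 := fun h => hac (S.one hu2 h0 hu20 hau2 ha0 h hc0)
  have haw1 : a ∉ N w1 := fun h => hab (S.one hw1 h0 hw10 h ha0 hbw1 hb0)
  have haw2 : a ∉ N w2 := fun h => hab (S.one hw2 h0 hw20 h ha0 hbw2 hb0)
  have hcw1 : c ∉ N w1 := fun h => hbc (S.one hw1 h0 hw10 hbw1 hb0 h hc0)
  have hcw2 : c ∉ N w2 := fun h => hbc (S.one hw2 h0 hw20 hbw2 hb0 h hc0)
  have har1 : a ∉ N r1 := fun h => hac (S.one hr1 h0 hr10 h ha0 hcr1 hc0)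
  have har2 : a ∉ N r2 := fun h => hac (S.one hr2 h0 hr20 h ha0 hcr2 hc0)
  have hbr1 : b ∉ N r1 := fun h => hbc (S.one hr1 h0 hr10 h hb0 hcr1 hc0)
  have hbr2 : b ∉ N r2 := fun h => hbc (S.one hr2 h0 hr20 h hb0 hcr2 hc0)
  -- d, e
  obtain ⟨d, hdu, hdw⟩ := S.meet hu1 hw1
  have hda : d ≠ a := by rintro rfl; exact haw1 hdw
  have hdb : d ≠ b := by rintro rfl; exact hbu1 hdu
  have hdc : d ≠ c := by rintro rfl; exact hcu1 hdu
  obtain ⟨e, hea, hed, hNu1⟩ := third_of (S.card3 u1 hu1) hau1 hdu hda.symm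
  have heu : e ∈ N u1 := (hNu1 e).2 (by simp)
  have heb : e ≠ b := by rintro rfl; exact hbu1 heu
  have hec : e ≠ c := by rintro rfl; exact hcu1 heu
  -- f, g
  obtain ⟨f, hfu, hfw⟩ := S.meet hu2 hw1
  have hfa : f ≠ a := by rintro rfl; exact haw1 hfw
  have hfb : f ≠ b := by rintro rfl; exact hbu2 hfu
  have hfc : f ≠ c := by rintro rfl; exact hcu2 hfu
  obtain ⟨g, hga, hgf, hNu2⟩ := third_of (S.card3 u2 hu2) hau2 hfu hfa.symm
  have hgu : g ∈ N u2 := (hNu2 g).2 (by simp)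
  have hgb : g ≠ b := by rintro rfl; exact hbu2 hgu
  have hgc : g ≠ c := by rintro rfl; exact hcu2 hgu
  have hdf : d ≠ f := by rintro rfl; exact hda (S.one hu1 hu2 hu12 hdu hfu hau1 hau2)
  have hdg : d ≠ g := by rintro rfl; exact hda (S.one hu1 hu2 hu12 hdu hgu hau1 hau2)
  have hef : e ≠ f := by rintro rfl; exact hea (S.one hu1 hu2 hu12 heu hfu hau1 hau2)
  have heg : e ≠ g := by rintro rfl; exact hea (S.one hu1 hu2 hu12 heu hgu hau1 hau2)
  -- w1 = {b, d, f}
  have hNw1 : ∀ x, x ∈ N w1 ↔ x = b ∨ x = d ∨ x = f := by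
    obtain ⟨y, hyb, hyd, hy⟩ := third_of (S.card3 w1 hw1) hbw1 hdw hdb.symm
    have : f = y := by
      rcases (hy f).1 hfw with h | h | h
      · exact absurd h hfb
      · exact absurd h.symm hdf
      · exact h
    rw [this]; exact hy
  -- w2 = {b, e, g}
  have hew2 : e ∈ N w2 := by
    obtain ⟨y, hy1, hy2⟩ := S.meet hu1 hw2
    rcases (hNu1 y).1 hy1 with rfl | rfl | rfl
    · exact absurd hy2 haw2
    · exact absurd (S.one hw1 hw2 hw12 hdw hy2 hbw1 hbw2) hdb
    · exact hy2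
  have hgw2 : g ∈ N w2 := by
    obtain ⟨y, hy1, hy2⟩ := S.meet hu2 hw2
    rcases (hNu2 y).1 hy1 with rfl | rfl | rfl
    · exact absurd hy2 haw2
    · exact absurd (S.one hw1 hw2 hw12 hfw hy2 hbw1 hbw2) hfb
    · exact hy2
  have hNw2 : ∀ x, x ∈ N w2 ↔ x = b ∨ x = e ∨ x = g := by
    obtain ⟨y, hyb, hyd, hy⟩ := third_of (S.card3 w2 hw2) hbw2 hew2 heb.symm
    have : g = y := by
      rcases (hy g).1 hgw2 with h | h | h
      · exact absurd h hgb
      · exact absurd h.symm heg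
      · exact h
    rw [this]; exact hy
  -- the triples through c
  have hr : ∀ r ∈ T, c ∈ N r → a ∉ N r → b ∉ N r →
      (∀ x, x ∈ N r ↔ x = c ∨ x = d ∨ x = g) ∨ (∀ x, x ∈ N r ↔ x = c ∨ x = e ∨ x = f) := by
    intro r hrT hcr har hbr
    have hrw1 : N r ≠ N w1 := by intro h; rw [h] at hbr; exact hbr hbw1
    have hrw2 : N r ≠ N w2 := by intro h; rw [h] at hbr; exact hbr hbw2
    obtain ⟨y, hy1, hy2⟩ := S.meet hrT hu1
    obtain ⟨y', hy1', hy2'⟩ := S.meet hrT hu2
    rcases (hNu1 y).1 hy2 with rfl | rfl | rfl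
    · exact absurd hy1 har
    · -- d ∈ N r
      left
      have hgr : g ∈ N r := by
        rcases (hNu2 y').1 hy2' with rfl | rfl | rfl
        · exact absurd hy1' har
        · exact absurd (S.one hrT hw1 hrw1 hy1 hdw hy1' hfw) hdf
        · exact hy1'
      obtain ⟨z, hz1, hz2, hz⟩ := third_of (S.card3 r hrT) hcr hy1 hdc.symm
      have : g = z := by
        rcases (hz g).1 hgr with h | h | h
        · exact absurd h hgc
        · exact absurd h.symm hdg
        · exact h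
      rw [this]; exact hz
    · right
      have hfr : f ∈ N r := by
        rcases (hNu2 y').1 hy2' with rfl | rfl | rfl
        · exact absurd hy1' har
        · exact hy1'
        · exact absurd (S.one hrT hw2 hrw2 hy1 hew2 hy1' hgw2) heg
      obtain ⟨z, hz1, hz2, hz⟩ := third_of (S.card3 r hrT) hcr hy1 hec.symm
      have : f = z := by
        rcases (hz f).1 hfr with h | h | h
        · exact absurd h hfc
        · exact absurd h.symm hef
        · exact h
      rw [this]; exact hz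
  have hrr : ∃ ra ∈ T, ∃ rb ∈ T, (∀ x, x ∈ N ra ↔ x = c ∨ x = d ∨ x = g) ∧
      (∀ x, x ∈ N rb ↔ x = c ∨ x = e ∨ x = f) := by
    rcases hr r1 hr1 hcr1 har1 hbr1 with h1 | h1 <;> rcases hr r2 hr2 hcr2 har2 hbr2 with h2 | h2
    · exact absurd (by ext x; rw [h1, h2]) hr12
    · exact ⟨r1, hr1, r2, hr2, h1, h2⟩
    · exact ⟨r2, hr2, r1, hr1, h2, h1⟩
    · exact absurd (by ext x; rw [h1, h2]) hr12
  obtain ⟨ra, hra, rb, hrb, hNra, hNrb⟩ := hrr
  have hinj : Function.Injective ![a, b, f, c, d, e, g] := by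
    have hnd : [a, b, f, c, d, e, g].Nodup := by
      simp only [List.nodup_cons, List.mem_cons, List.not_mem_nil, not_or, or_false,
        not_false_eq_true, List.nodup_nil, and_true]
      exact ⟨⟨hab, hfa.symm, hac, hda.symm, hea.symm, hga.symm⟩,
        ⟨hfb.symm, hbc, hdb.symm, heb.symm, hgb.symm⟩, ⟨hfc, hdf.symm, hef.symm, hgf.symm⟩,
        ⟨hdc.symm, hec.symm, hgc.symm⟩, ⟨hed.symm, hdg⟩, heg⟩
    intro i j hij
    have h7 : ∀ k : Fin 7, ![a, b, f, c, d, e, g] k = [a, b, f, c, d, e, g].get k := by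
      intro k; fin_cases k <;> rfl
    rw [h7, h7] at hij
    exact hnd.injective_get hij
  refine ⟨![a, b, f, c, d, e, g], hinj, ?_⟩
  intro i
  fin_cases i
  · exact ⟨v0, h0, fun x => by rw [hN0]; rfl⟩
  · exact ⟨w1, hw1, fun x => (hNw1 x).trans (or_swap3 _ _ _)⟩
  · exact ⟨rb, hrb, fun x => (hNrb x).trans (or_rot3 _ _ _).symm⟩
  · exact ⟨ra, hra, fun x => hNra x⟩
  · exact ⟨u1, hu1, fun x => (hNu1 x).trans (or_rot3 _ _ _)⟩
  · exact ⟨w2, hw2, fun x => (hNw2 x).trans (or_rot3 _ _ _)⟩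
  · exact ⟨u2, hu2, fun x => (hNu2 x).trans (or_rot3 _ _ _).symm⟩

end R93.Diam2
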