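import Mathlib
import Pool.Agent.R93.Diam2.Plane
import Pool.Agent.R93.Diam2.Hub

/-!
# The lower bound for orders congruent to 2 modulo 7
-/

namespace R93.Diam2

open Finset

variable {V : Type*} [Fintype V] [DecidableEq V] (G : SimpleGraph V) [DecidableRel G.Adj]

/-- The number of neighbours of high degree. -/
def hi (K : ℕ) (v : V) : ℕ := ((G.neighborFinset v).filter (fun u => K < G.degree u)).card

theorem card_le_sum_deg
    (hdiam : ∀ u v, u ≠ v → G.Adj u v ∨ ∃ w, G.Adj u w ∧ G.Adj w v) (v : V) :
    Fintype.card V ≤ 1 + ∑ u ∈ G.neighborFinset v, G.degree u := by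
  have hsub : (Finset.univ : Finset V) ⊆
      {v} ∪ (G.neighborFinset v).biUnion (fun u => insert u ((G.neighborFinset u).erase v)) := by
    intro w _
    rw [Finset.mem_union, Finset.mem_singleton, Finset.mem_biUnion]
    by_cases hw : w = v
    · exact Or.inl hw
    · right
      rcases hdiam v w (Ne.symm hw) with h | ⟨u, h1, h2⟩
      · exact ⟨w, by rw [SimpleGraph.mem_neighborFinset]; exact h, Finset.mem_insert_self _ _⟩
      · refine ⟨u, by rw [SimpleGraph.mem_neighborFinset]; exact h1, ?_⟩
        rw [Finset.mem_insert, Finset.mem_erase, SimpleGraph.mem_neighborFinset]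
        exact Or.inr ⟨hw, h2⟩
  have h1 := Finset.card_le_card hsub
  rw [Finset.card_univ] at h1
  refine h1.trans ((Finset.card_union_le _ _).trans ?_)
  rw [Finset.card_singleton]
  refine Nat.add_le_add_left ?_ 1
  refine Finset.card_biUnion_le.trans (Finset.sum_le_sum fun u hu => ?_)
  rw [SimpleGraph.mem_neighborFinset] at hu
  refine (Finset.card_insert_le _ _).trans ?_
  rw [Finset.card_erase_of_mem (by rw [SimpleGraph.mem_neighborFinset]; exact hu.symm),
    SimpleGraph.card_neighborFinset_eq_degree]
  have : 0 < G.degree u := by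
    rw [SimpleGraph.degree_pos_iff_exists_adj]; exact ⟨v, hu.symm⟩
  omega

theorem three_le_hi {m K : ℕ} (hn : Fintype.card V = 7 * m + 2) (hm : K * K ≤ m)
    (hdiam : ∀ u v, u ≠ v → G.Adj u v ∨ ∃ w, G.Adj u w ∧ G.Adj w v)
    (hdeg : ∀ v, G.degree v ≤ 3 * m) (v : V) (hv : G.degree v ≤ K) : 3 ≤ hi G K v := by
  by_contra hcon
  push Not at hcon
  have h1 := card_le_sum_deg G hdiam v
  rw [hn, ← Finset.sum_filter_add_sum_filter_not (G.neighborFinset v) (fun u => K < G.degree u)]
    at h1
  have h2 : ∑ u ∈ (G.neighborFinset v).filter (fun u => K < G.degree u), G.degree u ≤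
      hi G K v * (3 * m) := by
    refine (Finset.sum_le_card_nsmul _ _ (3 * m) fun u _ => hdeg u).trans ?_
    rw [smul_eq_mul]; exact le_rfl
  have h3 : ∑ u ∈ (G.neighborFinset v).filter (fun u => ¬ K < G.degree u), G.degree u ≤ K * K := by
    refine (Finset.sum_le_card_nsmul _ _ K fun u hu => ?_).trans ?_
    · rw [Finset.mem_filter] at hu; omega
    · rw [smul_eq_mul]
      refine Nat.mul_le_mul_right K ?_
      refine (Finset.card_filter_le _ _).trans ?_
      rw [SimpleGraph.card_neighborFinset_eq_degree]; exact hv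
  have h4 : hi G K v * (3 * m) ≤ 2 * (3 * m) := Nat.mul_le_mul_right _ (by omega)
  omega

omit [DecidableEq V] in
theorem sum_hi_le (K : ℕ) :
    ∑ v ∈ Finset.univ.filter (fun v => G.degree v ≤ K), hi G K v ≤
      ∑ u ∈ Finset.univ.filter (fun v => ¬ G.degree v ≤ K), G.degree u := by
  have h1 : ∀ v, hi G K v = ∑ u ∈ Finset.univ.filter (fun v => ¬ G.degree v ≤ K),
      if G.Adj v u then 1 else 0 := by
    intro v
    unfold hi
    rw [← Finset.card_filter, Finset.filter_filter]
    congr 1
    ext u
    simp only [Finset.mem_filter, SimpleGraph.mem_neighborFinset, Finset.mem_univ, true_and,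
      not_le]
    tauto
  rw [Finset.sum_congr rfl fun v _ => h1 v, Finset.sum_comm]
  refine Finset.sum_le_sum fun u _ => ?_
  rw [← Finset.card_filter, ← SimpleGraph.card_neighborFinset_eq_degree]
  apply Finset.card_le_card
  intro v hv
  rw [Finset.mem_filter] at hv
  rw [SimpleGraph.mem_neighborFinset]
  exact hv.2.symm

/-- A graph of diameter at most two on `7 m + 2` vertices with maximum degree at most `3 m` has
more than `(3 + δ) n` edges. -/
theorem lower {m : ℕ} (hn : Fintype.card V = 7 * m + 2) (hm : 10 ^ 10 ≤ m)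
    (hdiam : ∀ u v, u ≠ v → G.Adj u v ∨ ∃ w, G.Adj u w ∧ G.Adj w v)
    (hdeg : ∀ v, G.degree v ≤ 3 * m) :
    42001 * m ≤ 1000 * ∑ v, G.degree v := by
  classical
  by_contra hcon
  push Not at hcon
  obtain ⟨K, hK⟩ : ∃ K : ℕ, K = 100000 := ⟨_, rfl⟩
  have hKm : K * K ≤ m := by rw [hK]; exact hm
  have h3 := three_le_hi G hn hKm hdiam hdeg
  set Low := Finset.univ.filter (fun v => G.degree v ≤ K) with hLow
  set High := Finset.univ.filter (fun v => ¬ G.degree v ≤ K) with hHigh
  have hsplit : ∑ v ∈ Low, G.degree v + ∑ v ∈ High, G.degree v = ∑ v, G.degree v :=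
    Finset.sum_filter_add_sum_filter_not _ _ _
  have hcards : Low.card + High.card = 7 * m + 2 := by
    rw [← hn, ← Finset.card_univ]
    exact Finset.card_filter_add_card_filter_not _
  have hHK : High.card * K ≤ ∑ v ∈ High, G.degree v := by
    rw [← smul_eq_mul]
    refine Finset.card_nsmul_le_sum _ _ _ fun v hv => ?_
    rw [hHigh, Finset.mem_filter] at hv
    omega
  have hhi := sum_hi_le G K
  rw [← hLow, ← hHigh] at hhi
  -- the set T
  set T := Finset.univ.filter (fun v => G.degree v = 3 ∧ ∀ u, G.Adj v u → K < G.degree u) with hT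
  have hTL : 7 * Low.card ≤ ∑ v ∈ Low, G.degree v + ∑ v ∈ Low, hi G K v + T.card := by
    have e1 : (Low.filter (fun v => v ∈ T)).card ≤ T.card := by
      apply Finset.card_le_card
      intro v hv
      exact (Finset.mem_filter.1 hv).2
    have e2 : 7 * Low.card ≤ ∑ v ∈ Low, G.degree v + ∑ v ∈ Low, hi G K v +
        (Low.filter (fun v => v ∈ T)).card := by
      rw [Finset.card_filter (fun v => v ∈ T) Low, ← Finset.sum_add_distrib,
        ← Finset.sum_add_distrib, mul_comm, ← smul_eq_mul]
      refine Finset.card_nsmul_le_sum _ _ _ fun v hv => ?_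
      have hvK : G.degree v ≤ K := by rw [hLow, Finset.mem_filter] at hv; exact hv.2
      have g1 := h3 v hvK
      have g2 : hi G K v ≤ G.degree v := by
        unfold hi
        refine (Finset.card_filter_le _ _).trans ?_
        rw [SimpleGraph.card_neighborFinset_eq_degree]
      by_cases hd : G.degree v = 3
      · have hvT : v ∈ T := by
          rw [hT, Finset.mem_filter]
          refine ⟨Finset.mem_univ _, hd, ?_⟩
          intro u hu
          have hc : ((G.neighborFinset v).filter (fun u => K < G.degree u)).card =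
              (G.neighborFinset v).card := by
            rw [SimpleGraph.card_neighborFinset_eq_degree]
            change hi G K v = G.degree v
            omega
          have := (Finset.card_filter_eq_iff.1 hc) u
            (by rw [SimpleGraph.mem_neighborFinset]; exact hu)
          exact this
        rw [if_pos hvT]
        omega
      · split_ifs <;> omega
    omega
  have hTbig : 7 * m ≤ T.card + m / 100 := by
    rw [hK] at hHK
    omega
  have hTmem : ∀ v ∈ T, G.degree v = 3 ∧ ∀ u, G.Adj v u → K < G.degree u := by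
    intro v hv
    rw [hT, Finset.mem_filter] at hv
    exact hv.2
  have S : Sys T (fun v => G.neighborFinset v) m (m / 100) := by
    refine ⟨?_, ?_, ?_, hTbig, by omega, by omega⟩
    · intro v hv
      rw [SimpleGraph.card_neighborFinset_eq_degree]
      exact (hTmem v hv).1
    · intro v hv w hw
      by_cases hvw : v = w
      · subst hvw
        rw [Finset.inter_self, ← Finset.card_pos, SimpleGraph.card_neighborFinset_eq_degree,
          (hTmem v hv).1]
        norm_num
      · rcases hdiam v w hvw with h | ⟨u, h1, h2⟩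
        · have g1 := (hTmem v hv).2 w h
          have g2 := (hTmem w hw).1
          omega
        · refine ⟨u, ?_⟩
          rw [Finset.mem_inter, SimpleGraph.mem_neighborFinset, SimpleGraph.mem_neighborFinset]
          exact ⟨h1, h2.symm⟩
    · intro x
      refine le_trans ?_ (hdeg x)
      rw [← SimpleGraph.card_neighborFinset_eq_degree]
      apply Finset.card_le_card
      intro v hv
      rw [Finset.mem_filter, SimpleGraph.mem_neighborFinset] at hv
      rw [SimpleGraph.mem_neighborFinset]
      exact hv.2.symm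
  obtain ⟨p, hp, hpw⟩ := S.fano
  choose w hwT hw using hpw
  have hw' : ∀ k e, G.Adj (w k) e ↔ ∃ j ∈ line k, e = p j := by
    intro k e
    rw [← SimpleGraph.mem_neighborFinset, hw]
    simp [line]
  -- the neighbours in the plane
  have hout : ∀ v, (∀ i, v ≠ p i) → 3 ≤ (Finset.univ.filter (fun j => G.Adj v (p j))).card := by
    intro v hv
    apply blocking
    intro k
    by_cases hvk : v = w k
    · refine ⟨k, by simp [line], ?_⟩
      rw [Finset.mem_filter]
      refine ⟨Finset.mem_univ _, ?_⟩
      rw [hvk, hw']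
      exact ⟨k, by simp [line], rfl⟩
    · rcases hdiam v (w k) hvk with h | ⟨u, h1, h2⟩
      · obtain ⟨j, -, hj⟩ := (hw' k v).1 h.symm
        exact absurd hj (hv j)
      · obtain ⟨j, hj, rfl⟩ := (hw' k u).1 h2.symm
        exact ⟨j, hj, by simp [h1]⟩
  have hin : ∀ i k, i ∉ line k → ∃ j ∈ line k, G.Adj (p i) (p j) := by
    intro i k hik
    have hne : p i ≠ w k := by
      intro h
      have g1 : K < G.degree (p i) := (hTmem _ (hwT i)).2 _ ((hw' i _).2 ⟨i, by simp [line], rfl⟩)
      have g2 := (hTmem _ (hwT k)).1
      rw [h] at g1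
      omega
    rcases hdiam (p i) (w k) hne with h | ⟨u, h1, h2⟩
    · obtain ⟨j, hj, hj'⟩ := (hw' k _).1 h.symm
      rw [hp hj'] at hik
      exact absurd hj hik
    · obtain ⟨j, hj, rfl⟩ := (hw' k u).1 h2.symm
      exact ⟨j, hj, h1⟩
  have h16 := hub_sum (fun i j => G.Adj (p i) (p j)) (fun i j h => h.symm) (fun i => G.irrefl) hin
  -- double counting
  have hdc : ∑ j, G.degree (p j) =
      ∑ v, (Finset.univ.filter (fun j => G.Adj v (p j))).card := by
    have e1 : ∀ j, G.degree (p j) = ∑ v, if G.Adj v (p j) then 1 else 0 := by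
      intro j
      rw [← Finset.card_filter, ← SimpleGraph.card_neighborFinset_eq_degree]
      congr 1
      ext v
      rw [SimpleGraph.mem_neighborFinset, Finset.mem_filter]
      exact ⟨fun h => ⟨Finset.mem_univ _, h.symm⟩, fun h => h.2.symm⟩
    rw [Finset.sum_congr rfl fun j _ => e1 j, Finset.sum_comm]
    refine Finset.sum_congr rfl fun v _ => ?_
    rw [Finset.card_filter]
  have hle : ∑ j, G.degree (p j) ≤ 21 * m := by
    calc ∑ j, G.degree (p j) ≤ ∑ _j : Fin 7, 3 * m := Finset.sum_le_sum fun j _ => hdeg _
      _ = 21 * m := by simp; ring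
  have hge : 3 * (7 * m - 5) + 16 ≤
      ∑ v, (Finset.univ.filter (fun j => G.Adj v (p j))).card := by
    rw [← Finset.sum_filter_add_sum_filter_not Finset.univ (fun v => ∀ i, v ≠ p i)]
    have himg : (Finset.univ.filter (fun v => ¬ ∀ i, v ≠ p i)) = Finset.univ.image p := by
      ext v
      simp [eq_comm]
    have hcimg : (Finset.univ.image p).card = 7 := by
      rw [Finset.card_image_of_injective _ hp]; simp
    have e2 : (Finset.univ.filter (fun v => ∀ i, v ≠ p i)).card = 7 * m - 5 := by
      have := Finset.card_filter_add_card_filter_not (s := (Finset.univ : Finset V))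
        (fun v => ∀ i, v ≠ p i)
      rw [himg, hcimg, Finset.card_univ, hn] at this
      omega
    refine Nat.add_le_add ?_ ?_
    · rw [mul_comm, ← e2, ← smul_eq_mul]
      refine Finset.card_nsmul_le_sum _ _ _ fun v hv => ?_
      exact hout v (Finset.mem_filter.1 hv).2
    · rw [himg, Finset.sum_image (fun a _ b _ h => hp h)]
      exact h16
  rw [hdc] at hle
  omega

end R93.Diam2
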