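import Mathlib
import Pool.Agent.R93.Diam2.Hub

/-!
# Constructions of graphs of diameter two
-/

namespace R93.Diam2

open Finset

/-- The nine edges between the hubs. -/
def hubEdges : List (Fin 7 × Fin 7) :=
  [(0, 1), (0, 5), (0, 6), (1, 4), (1, 5), (2, 3), (2, 4), (2, 6), (3, 5)]

def hubAdj (i j : Fin 7) : Prop := (i, j) ∈ hubEdges ∨ (j, i) ∈ hubEdges

instance : DecidableRel hubAdj := fun i j => by unfold hubAdj; infer_instance

theorem hub_irrefl : ∀ i, ¬ hubAdj i i := by decide +kernel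

theorem hub_deg : ∀ i, (univ.filter (fun j => hubAdj i j)).card ≤ 3 := by decide +kernel

theorem hub_reach : ∀ i l, i ∉ line l → ∃ j ∈ line l, hubAdj i j := by decide +kernel

theorem line_two : ∀ i j : Fin 7, ∃ l, i ∈ line l ∧ j ∈ line l := by decide +kernel

theorem line_card : ∀ l, (line l).card = 3 := by decide +kernel

theorem line_thru : ∀ i : Fin 7, (univ.filter (fun l => i ∈ line l)).card = 3 := by decide +kernel

/-- Adjacency of the extremal graph: seven hubs, and `k` vertices for each line. -/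
def uAdj (k : ℕ) : Fin 7 ⊕ (Fin k × Fin 7) → Fin 7 ⊕ (Fin k × Fin 7) → Prop
  | Sum.inl i, Sum.inl j => hubAdj i j
  | Sum.inl i, Sum.inr a => i ∈ line a.2
  | Sum.inr a, Sum.inl i => i ∈ line a.2
  | Sum.inr _, Sum.inr _ => False

def UG (k : ℕ) : SimpleGraph (Fin 7 ⊕ (Fin k × Fin 7)) where
  Adj := uAdj k
  symm := ⟨by
    rintro (i | a) (j | b) h
    · exact Or.symm h
    · exact h
    · exact h
    · exact h⟩
  loopless := ⟨by
    rintro (i | a) h
    · exact hub_irrefl i h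
    · exact h⟩

theorem UG_diam (k : ℕ) (hk : 1 ≤ k) (u v : Fin 7 ⊕ (Fin k × Fin 7)) (huv : u ≠ v) :
    (UG k).Adj u v ∨ ∃ w, (UG k).Adj u w ∧ (UG k).Adj w v := by
  rcases u with i | a <;> rcases v with j | b
  · right
    obtain ⟨l, h1, h2⟩ := line_two i j
    exact ⟨Sum.inr (⟨0, hk⟩, l), h1, h2⟩
  · by_cases h : i ∈ line b.2
    · exact Or.inl h
    · right
      obtain ⟨j, hj, hij⟩ := hub_reach i b.2 h
      exact ⟨Sum.inl j, hij, hj⟩
  · by_cases h : j ∈ line a.2
    · exact Or.inl h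
    · right
      obtain ⟨i, hi, hij⟩ := hub_reach j a.2 h
      exact ⟨Sum.inl i, hi, Or.symm hij⟩
  · right
    obtain ⟨p, hp, hp'⟩ := line_meet a.2 b.2
    exact ⟨Sum.inl p, hp, hp'⟩

open Classical in
theorem UG_deg_inl (k : ℕ) (i : Fin 7) : (UG k).degree (Sum.inl i) ≤ 3 * (k + 1) := by
  rw [← SimpleGraph.card_neighborFinset_eq_degree]
  have hsub : (UG k).neighborFinset (Sum.inl i) ⊆
      (univ.filter (fun j => hubAdj i j)).map ⟨Sum.inl, Sum.inl_injective⟩ ∪
      ((univ : Finset (Fin k)) ×ˢ (univ.filter (fun l => i ∈ line l))).map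
        ⟨Sum.inr, Sum.inr_injective⟩ := by
    intro x hx
    rw [SimpleGraph.mem_neighborFinset] at hx
    rw [Finset.mem_union]
    rcases x with j | b
    · left
      rw [Finset.mem_map]
      exact ⟨j, by rw [Finset.mem_filter]; exact ⟨Finset.mem_univ _, hx⟩, rfl⟩
    · right
      rw [Finset.mem_map]
      refine ⟨b, ?_, rfl⟩
      rw [Finset.mem_product, Finset.mem_filter]
      exact ⟨Finset.mem_univ _, Finset.mem_univ _, hx⟩
  refine (Finset.card_le_card hsub).trans ((Finset.card_union_le _ _).trans ?_)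
  rw [Finset.card_map, Finset.card_map, Finset.card_product, line_thru, Finset.card_univ,
    Fintype.card_fin]
  have := hub_deg i
  omega

open Classical in
theorem UG_deg_inr (k : ℕ) (a : Fin k × Fin 7) : (UG k).degree (Sum.inr a) ≤ 3 := by
  rw [← SimpleGraph.card_neighborFinset_eq_degree, ← line_card a.2,
    ← Finset.card_map ⟨(Sum.inl : Fin 7 → Fin 7 ⊕ (Fin k × Fin 7)), Sum.inl_injective⟩]
  apply Finset.card_le_card
  intro x hx
  rw [SimpleGraph.mem_neighborFinset] at hx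
  rcases x with j | b
  · rw [Finset.mem_map]
    exact ⟨j, hx, rfl⟩
  · exact absurd hx (by intro h; exact h)

open Classical in
theorem UG_edges (k : ℕ) : (UG k).edgeFinset.card ≤ 21 * (k + 1) := by
  have h := (UG k).sum_degrees_eq_twice_card_edges
  rw [Fintype.sum_sum_type] at h
  have h1 : ∑ i : Fin 7, (UG k).degree (Sum.inl i) ≤ ∑ _i : Fin 7, 3 * (k + 1) :=
    Finset.sum_le_sum fun i _ => UG_deg_inl k i
  have h2 : ∑ a : Fin k × Fin 7, (UG k).degree (Sum.inr a) ≤ ∑ _a : Fin k × Fin 7, 3 :=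
    Finset.sum_le_sum fun a _ => UG_deg_inr k a
  simp only [Finset.sum_const, Finset.card_univ, Fintype.card_fin, Fintype.card_prod,
    smul_eq_mul] at h1 h2
  omega

/-- A graph of diameter two and small maximum degree, on any number of vertices. -/
def SG (n : ℕ) : SimpleGraph (Fin n) where
  Adj x y := x ≠ y ∧ ((x : ℕ) % 3 = (y : ℕ) % 3 ∨ ((x : ℕ) ≤ y + 3 ∧ (y : ℕ) ≤ x + 3))
  symm := ⟨by
    rintro x y ⟨h1, h2⟩
    refine ⟨h1.symm, ?_⟩
    rcases h2 with h | h
    · exact Or.inl h.symm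
    · exact Or.inr ⟨h.2, h.1⟩⟩
  loopless := ⟨by
    rintro x ⟨h, -⟩
    exact h rfl⟩

theorem SG_diam {n : ℕ} (hn : 4 ≤ n) (x y : Fin n) (hxy : x ≠ y) :
    (SG n).Adj x y ∨ ∃ w, (SG n).Adj x w ∧ (SG n).Adj w y := by
  obtain ⟨z, hzn, hz1, hz2, hz3⟩ : ∃ z : ℕ, z < n ∧ z % 3 = (x : ℕ) % 3 ∧ z ≤ y + 3 ∧
      (y : ℕ) ≤ z + 3 := by
    have hy := y.2
    by_cases h : 2 ≤ (y : ℕ)
    · refine ⟨(y : ℕ) - ((y : ℕ) + 3 - (x : ℕ) % 3) % 3, ?_, ?_, ?_, ?_⟩ <;> omega
    · refine ⟨(y : ℕ) + ((x : ℕ) + 3 - (y : ℕ) % 3) % 3, ?_, ?_, ?_, ?_⟩ <;> omega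
  by_cases hzx : (⟨z, hzn⟩ : Fin n) = x
  · left
    refine ⟨hxy, Or.inr ?_⟩
    rw [← hzx]
    exact ⟨hz2, hz3⟩
  · by_cases hzy : (⟨z, hzn⟩ : Fin n) = y
    · left
      refine ⟨hxy, Or.inl ?_⟩
      rw [← hzy]
      exact hz1.symm
    · right
      exact ⟨⟨z, hzn⟩, ⟨Ne.symm hzx, Or.inl hz1.symm⟩, ⟨hzy, Or.inr ⟨hz2, hz3⟩⟩⟩

theorem SG_deg {n : ℕ} (x : Fin n) : ((SG n).neighborSet x).ncard ≤ n / 3 + 8 := by
  classical
  have hsub : (fun y : Fin n => (y : ℕ)) '' ((SG n).neighborSet x) ⊆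
      (((Finset.range n).filter (fun y => y % 3 = (x : ℕ) % 3)) ∪
        Finset.Icc ((x : ℕ) - 3) ((x : ℕ) + 3) : Finset ℕ) := by
    rintro _ ⟨y, hy, rfl⟩
    obtain ⟨h1, h2⟩ := hy
    rw [Finset.mem_coe, Finset.mem_union, Finset.mem_filter, Finset.mem_range, Finset.mem_Icc]
    beta_reduce
    rcases h2 with h | h
    · exact Or.inl ⟨y.2, h.symm⟩
    · right; omega
  have h1 := Set.ncard_le_ncard hsub (Finset.finite_toSet _)
  rw [Set.ncard_image_of_injective _ Fin.val_injective, Set.ncard_coe_finset] at h1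
  refine h1.trans ((Finset.card_union_le _ _).trans ?_)
  have h2 : ((Finset.range n).filter (fun y => y % 3 = (x : ℕ) % 3)).card ≤ n / 3 + 1 := by
    have h3 : ((Finset.range n).filter (fun y => y % 3 = (x : ℕ) % 3)).card ≤
        (Finset.range (n / 3 + 1)).card := by
      apply Finset.card_le_card_of_injOn (fun y => y / 3)
      · intro y hy
        rw [Finset.mem_coe, Finset.mem_filter, Finset.mem_range] at hy
        rw [Finset.mem_coe, Finset.mem_range]
        have : y / 3 ≤ n / 3 := Nat.div_le_div_right hy.1.le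
        show y / 3 < n / 3 + 1
        omega
      · intro y hy z hz hyz
        rw [Finset.mem_coe, Finset.mem_filter, Finset.mem_range] at hy hz
        simp only at hyz
        omega
    rwa [Finset.card_range] at h3
  have h3 : (Finset.Icc ((x : ℕ) - 3) ((x : ℕ) + 3)).card ≤ 7 := by
    rw [Nat.card_Icc]; omega
  omega

end R93.Diam2
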